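import Pool.Agent.U975.RM.Cover

/-!
# Finite covers of split extensions with many cyclic characters
-/

set_option autoImplicit false

namespace Pool.Agent.U975.RE

open Function Pool.Agent.U975.RM

/-- the characters of order `l` of the subgroups of `N` lift to characters of order `l ^ k` -/
def LiftsOn {X G : Type} [Group X] [Group G] (π : X →* G) (N : Subgroup G) (k : ℕ) : Prop :=
  ∀ (hk : 0 < k) (S : Subgroup G), S ≤ N → ∀ (l : ℕ), l.Prime →
    ∀ ρ : S →* Multiplicative (ZMod l), ∃ χ : (S.comap π) →* Multiplicative (ZMod (l ^ k)),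
      ∀ s : S.comap π, red l k hk (χ s) = ρ ⟨π s, s.2⟩

/-- passage to a finite quotient -/
theorem finite_quotient {E G : Type} [Group E] [Group G] [Finite G] (ε : E →* G)
    (N : Subgroup G) {k : ℕ} (hk : 0 < k) (h : LiftsOn ε N k) :
    ∃ (V : Subgroup E) (_ : V.Normal) (_ : V.FiniteIndex) (hV : V ≤ ε.ker),
      LiftsOn (QuotientGroup.lift V ε hV) N k := by
  classical
  -- the finite index set
  let J : Type := Σ S : {S : Subgroup G // S ≤ N}, Σ l : {l : ℕ // l ∈ (Nat.card G).primeFactors},
    ((S : Subgroup G) →* Multiplicative (ZMod l))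
  have hfin : Finite J := by
    have h1 : ∀ (S : {S : Subgroup G // S ≤ N}) (l : {l : ℕ // l ∈ (Nat.card G).primeFactors}),
        Finite ((S : Subgroup G) →* Multiplicative (ZMod l)) := by
      intro S l
      have : NeZero (l : ℕ) := ⟨(Nat.prime_of_mem_primeFactors l.2).ne_zero⟩
      have : Finite (Multiplicative (ZMod l)) := inferInstanceAs (Finite (ZMod l))
      exact Finite.of_injective (DFunLike.coe : ((S : Subgroup G) →* Multiplicative (ZMod l)) → _)
        DFunLike.coe_injective
    infer_instance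
  have hex : ∀ j : J, ∃ χ : ((j.1 : Subgroup G).comap ε) →*
      Multiplicative (ZMod ((j.2.1 : ℕ) ^ k)),
      ∀ s, red j.2.1 k hk (χ s) = j.2.2 ⟨ε s, s.2⟩ := by
    intro j
    exact h hk j.1 j.1.2 j.2.1 (Nat.prime_of_mem_primeFactors j.2.1.2) j.2.2
  choose χ hχ using hex
  have hKfi : ∀ j : J, ((χ j).ker.map ((j.1 : Subgroup G).comap ε).subtype).FiniteIndex := by
    intro j
    have hl : (j.2.1 : ℕ).Prime := Nat.prime_of_mem_primeFactors j.2.1.2
    have : NeZero ((j.2.1 : ℕ) ^ k) := ⟨(pow_pos hl.pos k).ne'⟩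
    have : Finite (Multiplicative (ZMod ((j.2.1 : ℕ) ^ k))) :=
      inferInstanceAs (Finite (ZMod ((j.2.1 : ℕ) ^ k)))
    have h1 : (χ j).ker.FiniteIndex := inferInstance
    have h2 : ((j.1 : Subgroup G).comap ε).FiniteIndex := by
      constructor
      rw [Subgroup.index_comap]
      intro h0
      exact Subgroup.FiniteIndex.index_ne_zero (H := (j.1 : Subgroup G).subgroupOf ε.range) h0
    constructor
    rw [Subgroup.index_map_subtype]
    exact mul_ne_zero h1.index_ne_zero h2.index_ne_zero
  set W : Subgroup E :=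
    ε.ker ⊓ ⨅ j : J, (χ j).ker.map ((j.1 : Subgroup G).comap ε).subtype with hW
  have hWfi : W.FiniteIndex := by
    have h1 : (⨅ j : J, (χ j).ker.map ((j.1 : Subgroup G).comap ε).subtype).FiniteIndex :=
      Subgroup.finiteIndex_iInf hKfi
    have h2 : ε.ker.FiniteIndex := inferInstance
    rw [hW]
    infer_instance
  set V := W.normalCore with hV
  have hVfi : V.FiniteIndex := inferInstance
  have hVW : V ≤ W := Subgroup.normalCore_le W
  have hVε : V ≤ ε.ker := hVW.trans inf_le_left
  refine ⟨V, inferInstance, hVfi, hVε, ?_⟩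
  intro hk' S hSN l hl ρ
  set π : E ⧸ V →* G := QuotientGroup.lift V ε hVε with hπ
  by_cases hlG : l ∣ Nat.card G
  · -- use the index
    let j : J := ⟨⟨S, hSN⟩, ⟨l, Nat.mem_primeFactors.2 ⟨hl, hlG, Nat.card_pos.ne'⟩⟩, ρ⟩
    have hmem : ∀ s : S.comap ε, ((s : E) : E ⧸ V) ∈ S.comap π := by
      intro s
      exact s.2
    let g : (S.comap ε) →* (S.comap π) :=
      ((QuotientGroup.mk' V).comp (S.comap ε).subtype).codRestrict _ hmem
    have hg : Surjective g := by
      rintro ⟨x, hx⟩
      obtain ⟨y, rfl⟩ := QuotientGroup.mk_surjective x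
      exact ⟨⟨y, hx⟩, rfl⟩
    have hker : g.ker ≤ (χ j).ker := by
      intro s hs
      have h1 : (s : E) ∈ V := by
        have h2 : ((s : E) : E ⧸ V) = 1 := congrArg Subtype.val hs
        exact (QuotientGroup.eq_one_iff _).1 h2
      have h3 : (s : E) ∈ (χ j).ker.map ((j.1 : Subgroup G).comap ε).subtype := by
        have h4 := hVW h1
        rw [hW] at h4
        exact (Subgroup.mem_iInf.1 h4.2) j
      obtain ⟨t, ht, hts⟩ := h3
      have : t = s := Subtype.ext hts
      rw [← this]
      exact ht
    refine ⟨g.liftOfSurjective hg ⟨χ j, hker⟩, ?_⟩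
    intro s
    obtain ⟨t, rfl⟩ := hg s
    have h1 : g.liftOfSurjective hg ⟨χ j, hker⟩ (g t) = χ j t :=
      MonoidHom.liftOfRightInverse_comp_apply _ _ _ _ _
    rw [h1]
    exact hχ j t
  · -- `ρ` is trivial
    refine ⟨1, fun s => ?_⟩
    have h1 : ρ ⟨π s, s.2⟩ = 1 := by
      set x := ρ ⟨π s, s.2⟩ with hx
      have h2 : x ^ Nat.card S = 1 := by
        rw [hx, ← map_pow, pow_card_eq_one', map_one]
      have h3 : x ^ l = 1 := by
        have : Multiplicative.toAdd (x ^ l) = 0 := by
          rw [toAdd_pow, nsmul_eq_mul, CharP.cast_eq_zero, zero_mul]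
        exact this
      have hco : Nat.Coprime (Nat.card S) l := by
        rw [Nat.coprime_comm, Nat.Prime.coprime_iff_not_dvd hl]
        exact fun h => hlG (h.trans (Subgroup.card_subgroup_dvd_card S))
      have h4 := pow_gcd_eq_one.2 ⟨h2, h3⟩
      rwa [hco.gcd_eq_one, pow_one] at h4
    rw [h1, MonoidHom.one_apply, map_one]

/-- the action of `Γ` on a free group, permuting the generators -/
noncomputable def act (N Γ : Type) [Group Γ] : Γ →* MulAut (FreeGroup (N × Γ)) where
  toFun γ := FreeGroup.freeGroupCongr (Equiv.prodCongr (Equiv.refl N) (Equiv.mulLeft γ))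
  map_one' := by
    ext x
    induction x using FreeGroup.induction_on with
    | C1 => simp
    | of x => simp
    | inv_of x ih => simp
    | mul x y hx hy => rw [map_mul, map_mul, hx, hy]
  map_mul' a b := by
    ext x
    induction x using FreeGroup.induction_on with
    | C1 => simp
    | of x =>
      simp only [MulAut.mul_apply, FreeGroup.freeGroupCongr_apply, FreeGroup.map.of]
      show FreeGroup.of (x.1, a * b * x.2) = FreeGroup.of (x.1, a * (b * x.2))
      rw [mul_assoc]
    | inv_of x ih => simp only [map_inv]; rw [ih]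
    | mul x y hx hy => rw [map_mul, map_mul, hx, hy]

lemma act_of (N Γ : Type) [Group Γ] (γ : Γ) (x : N × Γ) :
    act N Γ γ (FreeGroup.of x) = FreeGroup.of (x.1, γ * x.2) := by
  show FreeGroup.freeGroupCongr (Equiv.prodCongr (Equiv.refl N) (Equiv.mulLeft γ)) _ = _
  simp only [FreeGroup.freeGroupCongr_apply, FreeGroup.map.of]
  rfl

/-- covers of split extensions -/
theorem exists_split_cover {G Γ : Type} [Group G] [Group Γ] [Finite G] [Finite Γ]
    (α : G →* Γ) (s : Γ →* G) (hs : ∀ x, α (s x) = x) {k : ℕ} (hk : 0 < k) :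
    ∃ (X : Type) (_ : Group X) (_ : Finite X) (π : X →* G) (s' : Γ →* X), Surjective π ∧
      (∀ x, π (s' x) = s x) ∧ LiftsOn π α.ker k := by
  classical
  set φ : FreeGroup (α.ker × Γ) →* G :=
    FreeGroup.lift (fun x => s x.2 * x.1 * (s x.2)⁻¹) with hφ
  have hφof : ∀ x, φ (FreeGroup.of x) = s x.2 * x.1 * (s x.2)⁻¹ := by
    intro x
    rw [hφ, FreeGroup.lift_apply_of]
  have hαφ : ∀ x, α (φ x) = 1 := by
    intro x
    induction x using FreeGroup.induction_on with
    | C1 => simp
    | of x =>
      rw [hφof, map_mul, map_mul, map_inv, hs]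
      have : α (x.1 : G) = 1 := x.1.2
      rw [this]
      simp
    | inv_of x ih => rw [map_inv, map_inv, ih, inv_one]
    | mul x y hx hy => rw [map_mul, map_mul, hx, hy, one_mul]
  let ε : (FreeGroup (α.ker × Γ)) ⋊[act α.ker Γ] Γ →* G := SemidirectProduct.lift φ s (by
    intro γ
    ext x
    · simp only [MonoidHom.comp_apply, MulEquiv.coe_toMonoidHom, act_of]
      rw [hφof]
      show s (γ * x.2) * x.1 * (s (γ * x.2))⁻¹ = s γ * φ (FreeGroup.of x) * (s γ)⁻¹
      rw [hφof, map_mul]
      group)
  have hεl : ∀ x, ε (SemidirectProduct.inl x) = φ x := fun x => SemidirectProduct.lift_inl _ _ _ _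
  have hεr : ∀ x, ε (SemidirectProduct.inr x) = s x := fun x => SemidirectProduct.lift_inr _ _ _ _
  have hαε : ∀ x, α (ε x) = x.right := by
    intro x
    have h1 : x = SemidirectProduct.inl x.left * SemidirectProduct.inr x.right :=
      (SemidirectProduct.inl_left_mul_inr_right x).symm
    conv_lhs => rw [h1]
    rw [map_mul, map_mul, hεl, hεr, hαφ, hs, one_mul]
  have hεs : Surjective ε := by
    intro g
    have hn : g * (s (α g))⁻¹ ∈ α.ker := by
      rw [MonoidHom.mem_ker, map_mul, map_inv, hs, mul_inv_cancel]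
    refine ⟨SemidirectProduct.inl (FreeGroup.of (⟨_, hn⟩, 1)) * SemidirectProduct.inr (α g), ?_⟩
    rw [map_mul, hεl, hεr, hφof]
    simp
  have hlift : LiftsOn ε α.ker k := by
    intro hk' S hS l hl ρ
    have hmem : ∀ x ∈ S.comap ε, (x.right = 1) := by
      intro x hx
      have h1 := hS hx
      rw [MonoidHom.mem_ker, hαε] at h1
      exact h1
    have hφx : ∀ x ∈ S.comap ε, φ x.left ∈ S := by
      intro x hx
      have h1 : x = SemidirectProduct.inl x.left := by
        apply SemidirectProduct.ext
        · simp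
        · simpa using hmem x hx
      rw [← hεl, ← h1]
      exact hx
    let left : (S.comap ε) →* (S.comap φ) :=
      { toFun := fun x => ⟨x.1.left, hφx _ x.2⟩
        map_one' := rfl
        map_mul' := by
          intro x y
          apply Subtype.ext
          show (x.1 * y.1).left = x.1.left * y.1.left
          rw [SemidirectProduct.mul_left, hmem _ x.2, map_one]
          rfl }
    obtain ⟨χ, hχ⟩ := free_lift (red l k hk') (red_surj l k hk') (ρ.comp
      ((φ.comp (S.comap φ).subtype).codRestrict S (fun s => s.2)))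
    refine ⟨χ.comp left, fun x => ?_⟩
    have h1 := DFunLike.congr_fun hχ (left x)
    rw [MonoidHom.comp_apply] at h1 ⊢
    rw [h1, MonoidHom.comp_apply]
    congr 1
    apply Subtype.ext
    show φ x.1.left = ε x.1
    rw [← hεl]
    congr 1
    apply SemidirectProduct.ext
    · simp
    · simpa using (hmem _ x.2).symm
  obtain ⟨V, hVn, hVf, hV, hlV⟩ := finite_quotient ε α.ker hk hlift
  refine ⟨_ ⧸ V, inferInstance, inferInstance, QuotientGroup.lift V ε hV,
    (QuotientGroup.mk' V).comp SemidirectProduct.inr, ?_, ?_, hlV⟩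
  · intro g
    obtain ⟨x, hx⟩ := hεs g
    exact ⟨(x : _ ⧸ V), by simpa using hx⟩
  · intro x
    show ε (SemidirectProduct.inr x) = s x
    exact hεr x

end Pool.Agent.U975.RE
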