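import Pool.Agent.U975.RE.Cover
import Pool.Agent.U975.RM.Descent

/-!
# The restriction on new tame ramification
-/

set_option autoImplicit false

namespace Pool.Agent.U975.RE

open Pool.Agent.W258.FM Function Pool.Agent.U975.RM
open scoped Pointwise

/-- the key divisibility -/
theorem key_dvd {X G : Type} [Group X] [Group G] (π : X →* G) {k : ℕ} (hk : 0 < k)
    (N : Subgroup G) (hπ : LiftsOn π N k) {l : ℕ} (hl : l.Prime) (S : Subgroup G) (hSN : S ≤ N)
    (ρ : S →* Multiplicative (ZMod l))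
    {r y u : X} (hr : π r ∈ S) (hy : π y ∈ S) {Q : ℕ} (hQ : 1 ≤ Q)
    (h : r * y * r⁻¹ = y ^ Q * u) (hρ : ρ ⟨π y, hy⟩ ≠ 1) {p c : ℕ} (hp : p.Prime) (hpl : l ≠ p)
    (hup : u ^ p ^ c = 1) : l ^ k ∣ Q - 1 := by
  have hu : π u ∈ S := by
    have h1 : u = (y ^ Q)⁻¹ * (r * y * r⁻¹) := by rw [h]; group
    rw [h1]
    simp only [map_mul, map_inv, map_pow]
    exact S.mul_mem (S.inv_mem (S.pow_mem hy _)) (S.mul_mem (S.mul_mem hr hy) (S.inv_mem hr))
  obtain ⟨χ, hχ⟩ := hπ hk S hSN l hl ρ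
  set r' : S.comap π := ⟨r, hr⟩
  set y' : S.comap π := ⟨y, hy⟩ with hy'
  set u' : S.comap π := ⟨u, hu⟩
  have h1 : r' * y' * r'⁻¹ = y' ^ Q * u' := Subtype.ext h
  have h2 : χ y' = χ y' ^ Q * χ u' := by
    have := congrArg χ h1
    rw [map_mul, map_mul, map_mul, map_inv, map_pow, mul_comm (χ r') (χ y'),
      mul_inv_cancel_right] at this
    exact this
  have h3 : χ u' ^ p ^ c = 1 := by
    rw [← map_pow]
    have : u' ^ p ^ c = 1 := Subtype.ext hup
    rw [this, map_one]
  -- additive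
  obtain ⟨a, ha⟩ : ∃ a : ZMod (l ^ k), a = Multiplicative.toAdd (χ y') := ⟨_, rfl⟩
  obtain ⟨b, hb⟩ : ∃ b : ZMod (l ^ k), b = Multiplicative.toAdd (χ u') := ⟨_, rfl⟩
  have h4 : a = Q * a + b := by
    have := congrArg Multiplicative.toAdd h2
    rw [toAdd_mul, toAdd_pow, nsmul_eq_mul] at this
    rw [ha, hb]
    exact this
  have h5 : ((p ^ c : ℕ) : ZMod (l ^ k)) * b = 0 := by
    have := congrArg Multiplicative.toAdd h3
    rw [toAdd_pow, nsmul_eq_mul] at this
    rw [hb]
    exact this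
  have hlk : NeZero (l ^ k) := ⟨(pow_pos hl.pos k).ne'⟩
  have h6 : IsUnit a := by
    have h7 : ¬ l ∣ a.val := by
      intro h8
      apply hρ
      rw [← hχ y']
      have h9 : ((a.val : ℕ) : ZMod (l ^ k)) = a := ZMod.natCast_zmod_val a
      have : (ZMod.castHom (dvd_pow_self l hk.ne') (ZMod l)) a = 0 := by
        rw [← h9, map_natCast, ZMod.natCast_eq_zero_iff]
        exact h8
      rw [ha] at this
      exact this
    rw [← ZMod.natCast_zmod_val a, ZMod.isUnit_iff_coprime]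
    exact (Nat.Coprime.pow_right k ((Nat.Prime.coprime_iff_not_dvd hl).2 h7).symm)
  have h7 : IsUnit (((p ^ c : ℕ) : ZMod (l ^ k))) := by
    rw [ZMod.isUnit_iff_coprime]
    exact Nat.Coprime.pow _ _ ((Nat.coprime_primes hp hl).2 (Ne.symm hpl))
  have h8 : b = 0 := h7.mul_right_eq_zero.1 h5
  have h9 : ((Q - 1 : ℕ) : ZMod (l ^ k)) * a = 0 := by
    rw [Nat.cast_sub hQ, Nat.cast_one, sub_mul, one_mul]
    rw [h8, add_zero] at h4
    rw [← h4, sub_self]
  have h10 : ((Q - 1 : ℕ) : ZMod (l ^ k)) = 0 := h6.mul_left_eq_zero.1 h9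
  exact (ZMod.natCast_eq_zero_iff _ _).1 h10

/-- involutions with image in `N` die -/
theorem involution_dies {X G : Type} [Group X] [Group G] (π : X →* G) {k : ℕ} (hk : 2 ≤ k)
    (N : Subgroup G) (hπ : LiftsOn π N k) {y : X} (hy : y * y = 1) (hyN : π y ∈ N) : π y = 1 := by
  by_contra hne
  have hyy : π y * π y = 1 := by rw [← map_mul, hy, map_one]
  set S : Subgroup G := Subgroup.zpowers (π y) with hS
  have hSN : S ≤ N := by rw [hS, Subgroup.zpowers_le]; exact hyN
  have hcard : Nat.card S = 2 := by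
    rw [hS, Nat.card_zpowers]
    exact orderOf_eq_prime (by rw [pow_two]; exact hyy) hne
  have hcyc : IsCyclic S := inferInstance
  have hfin : Finite S := Nat.finite_of_card_ne_zero (by rw [hcard]; norm_num)
  obtain ⟨ρ, hρ⟩ := exists_char S (l := 2) (by rw [hcard])
  have hyS : π y ∈ S := Subgroup.mem_zpowers _
  have h := key_dvd π (by omega : 0 < k) N hπ Nat.prime_two S hSN ρ (r := 1) (y := y)
    (u := 1) (by rw [map_one]; exact S.one_mem) hyS (Q := 3) (by omega)
    (by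
      rw [one_mul, inv_one, mul_one, mul_one, pow_succ, pow_two, hy, one_mul])
    (by
      intro h0
      obtain ⟨⟨z, hz⟩, hz2⟩ := hρ (Multiplicative.ofAdd (1 : ZMod 2))
      obtain ⟨n, rfl⟩ := Subgroup.mem_zpowers_iff.1 hz
      have h1 : (⟨π y ^ n, hz⟩ : S) = (⟨π y, hyS⟩ : S) ^ n := rfl
      rw [h1, map_zpow, h0, one_zpow] at hz2
      have h2 : (0 : ZMod 2) = 1 := congrArg Multiplicative.toAdd hz2
      exact absurd h2 (by decide)) (p := 3) (c := 0) Nat.prime_three (by norm_num)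
    (by simp)
  have h2 : 2 ^ 2 ∣ 2 ^ k := pow_dvd_pow 2 hk
  have h3 := h2.trans h
  norm_num at h3

/-- the tame quotient of a subgroup of the inertia group is cyclic -/
theorem exists_tame_char {R : Type*} [CommRing R] [IsDedekindDomain R] {G : Type*} [Group G]
    [MulSemiringAction G R] [FaithfulSMul G R] [Finite G] {P : Ideal R} (hP : P.IsMaximal)
    (h0 : P ≠ ⊥) {p : ℕ} (hp : p.Prime) (hpP : (p : R) ∈ P) {l : ℕ} (hl : l.Prime) (hlp : l ≠ p)
    (S : Subgroup G) (hS : S ≤ inerGroup (G := G) P) (hdvd : l ∣ Nat.card S) :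
    ∃ ρ : S →* Multiplicative (ZMod l), Surjective ρ := by
  classical
  obtain ⟨θ, h1, -⟩ := exists_theta (G := G) hP h0 hp hpP
  have : IsDomain (R ⧸ P) := Ideal.Quotient.isDomain P
  set θ' : S →* (R ⧸ P)ˣ := θ.toHomUnits.comp (Subgroup.inclusion hS) with hθ'
  set C := θ'.range with hC
  have hfinC : Finite C :=
    Finite.of_surjective θ'.rangeRestrict θ'.rangeRestrict_surjective
  have hcyc : IsCyclic C := isCyclic_subgroup_units C
  have hfp : Fact p.Prime := ⟨hp⟩
  have hker : IsPGroup p θ'.ker := by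
    intro x
    have hx : θ (Subgroup.inclusion hS x) = 1 := by
      have h2 : θ' x = 1 := x.2
      exact congrArg Units.val h2
    obtain ⟨c, hc⟩ := h1 _ hx
    exact ⟨c, Subtype.ext (Subtype.ext hc)⟩
  have hcard : Nat.card S = Nat.card C * Nat.card θ'.ker := by
    rw [← Subgroup.index_mul_card θ'.ker, Subgroup.index_ker]
  have hlC : l ∣ Nat.card C := by
    rw [hcard, hl.dvd_mul] at hdvd
    rcases hdvd with h | h
    · exact h
    · exfalso
      obtain ⟨c, hc⟩ := (IsPGroup.iff_card).1 hker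
      rw [hc] at h
      exact hlp ((Nat.prime_dvd_prime_iff_eq hl hp).1 (hl.dvd_of_dvd_pow h))
  obtain ⟨ρ, hρ⟩ := exists_char C hlC
  exact ⟨ρ.comp θ'.rangeRestrict, hρ.comp θ'.rangeRestrict_surjective⟩

section descent

variable {A B C : Type*} [CommRing A] [CommRing B] [CommRing C] [Algebra A B] [Algebra A C]
  [Algebra B C] [IsScalarTower A B C] {H Γ : Type} [Group H] [Group Γ] [Finite Γ]
  [MulSemiringAction H B] [MulSemiringAction Γ C]

/-- **Restriction on new tame ramification** -/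
theorem tame_restriction [IsDedekindDomain B] [IsDedekindDomain C] [Finite H] [FaithfulSMul H B]
    [FaithfulSMul Γ C] [SMulCommClass Γ A C] [Algebra.IsInvariant A C Γ]
    [Algebra.IsIntegral B C] [FaithfulSMul B C] (res : Γ →* H)
    (hres : Surjective res) (hc : ∀ g b, algebraMap B C (res g • b) = g • algebraMap B C b)
    (hinv : ∀ c : C, (∀ g : Γ, res g = 1 → g • c = c) → ∃ b : B, algebraMap B C b = c)
    {k : ℕ} (hk : 0 < k) (N : Subgroup H) (hlift : LiftsOn res N k)
    (P : Ideal B) (hP : P.IsMaximal) (hP0 : P ≠ ⊥)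
    (hfin : ∀ Q : Ideal C, Q.LiesOver P → Q.IsMaximal → Finite (C ⧸ Q)) {p : ℕ}
    (hp : p.Prime) (hpP : (p : B) ∈ P) {l : ℕ} (hl : l.Prime) (hlp : l ≠ p)
    (hdvd : l ∣ Nat.card (inerGroup (G := H) P ⊓ N : Subgroup H)) {m : ℕ}
    (hm : ∀ x ∈ inerGroup (G := H) P, x ^ m ∈ N) :
    l ^ k ∣ Nat.card (B ⧸ P) ^ m - 1 := by
  classical
  obtain ⟨Q, hQmax, hQP⟩ := Ideal.exists_maximal_ideal_liesOver_of_isIntegral (S := C) P
  have hQ : Q.IsPrime := hQmax.isPrime
  have hQ0 : Q ≠ ⊥ := Ideal.ne_bot_of_liesOver_of_ne_bot hP0 Q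
  have hpQ : (p : C) ∈ Q := by
    have := (Ideal.mem_of_liesOver Q P (p : B)).1 hpP
    rwa [map_natCast] at this
  have : Finite (C ⧸ Q) := hfin Q hQP hQmax
  obtain ⟨σ, hσ⟩ := IsArithFrobAt.exists_of_isInvariant A Γ Q
  set q := Nat.card (A ⧸ P.under A) with hq
  have hunder : Q.under A = P.under A := by
    rw [Ideal.over_def Q P, Ideal.under_under]
  have hσ' : ∀ x : C, σ • x - x ^ q ∈ Q := by
    intro x
    have := hσ x
    rw [hunder] at this
    exact this
  have hfinB : Finite (B ⧸ P) := by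
    have hPQ : P = Q.comap (algebraMap B C) := hQP.over
    exact Finite.of_injective (Ideal.quotientMap Q (algebraMap B C) hPQ.le)
      (Ideal.quotientMap_injective' hPQ.ge)
  have hmaxA : (P.under A).IsMaximal := by
    have hPp : P.IsPrime := hP.isPrime
    have hpr : (P.under A).IsPrime := Ideal.IsPrime.under A P
    have hinj : Function.Injective (algebraMap (A ⧸ P.under A) (B ⧸ P)) :=
      Ideal.algebraMap_quotient_injective
    have hfA : Finite (A ⧸ P.under A) := Finite.of_injective _ hinj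
    have hd : IsDomain (A ⧸ P.under A) := Ideal.Quotient.isDomain _
    exact Ideal.Quotient.maximal_of_isField _ (Finite.isField_of_domain _)
  have hfinA : Finite (A ⧸ P.under A) :=
    Finite.of_injective (algebraMap (A ⧸ P.under A) (B ⧸ P)) Ideal.algebraMap_quotient_injective
  have hq0 : q ≠ 0 := Nat.card_pos.ne'
  obtain ⟨f, hf⟩ : ∃ f : ℕ, Nat.card (B ⧸ P) = q ^ f :=
    card_pow _ _ ((Ideal.Quotient.maximal_ideal_iff_isField_quotient _).1 hmaxA)
      (algebraMap (A ⧸ P.under A) (B ⧸ P))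
  obtain ⟨ρ, hρ⟩ := exists_tame_char (G := H) hP hP0 hp hpP hl hlp
    (inerGroup (G := H) P ⊓ N) inf_le_left hdvd
  have hfl : Fact l.Prime := ⟨hl⟩
  obtain ⟨y, hy⟩ := hρ (Multiplicative.ofAdd (1 : ZMod l))
  have hy1 : ρ y ≠ 1 := by
    rw [hy]
    intro h
    have h2 : (1 : ZMod l) = 0 := congrArg Multiplicative.toAdd h
    exact one_ne_zero h2
  obtain ⟨z, hz, hzI⟩ := inertia_surj res hres hc hinv P Q y y.2.1
  obtain ⟨u, c, hu, huc⟩ := tame_conj hQmax hQ0 hp hpQ hq0 hσ' hzI (f * m)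
  have hfrob : res (σ ^ f) ∈ inerGroup (G := H) P := by
    intro b
    have h1 : res (σ ^ f) • b - b ^ q ^ f ∈ P := by
      rw [Ideal.mem_of_liesOver Q P, map_sub, hc, map_pow]
      exact frob_pow hσ' f _
    have h2 : b ^ q ^ f - b ∈ P := by
      rw [← hf]
      exact pow_card_mem hP b
    have h3 := Ideal.add_mem _ h1 h2
    have e : res (σ ^ f) • b - b = (res (σ ^ f) • b - b ^ q ^ f) + (b ^ q ^ f - b) := by ring
    rw [e]
    exact h3
  rw [hf, ← pow_mul]
  refine key_dvd res hk N hlift hl (inerGroup (G := H) P ⊓ N) inf_le_right ρ (r := σ ^ (f * m))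
    (y := z) (u := u) ?_ (by rw [hz]; exact y.2) (Nat.one_le_pow _ _ (Nat.pos_of_ne_zero hq0)) hu
    ?_ hp hlp huc
  · rw [pow_mul, map_pow]
    exact ⟨Subgroup.pow_mem _ hfrob _, hm _ hfrob⟩
  · intro h
    apply hy1
    rw [← h]
    congr 1
    exact Subtype.ext hz.symm

end descent

end Pool.Agent.U975.RE
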