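import Pool.Agent.U975.RE.Descent

/-!
# Solutions of the embedding problems given by covers
-/

set_option autoImplicit false

namespace Pool.Agent.U975.RE

open Function Pool.Agent.U975.RM

/-- the embedding problem `α` over `K` has a proper solution -/
def Solvable (K F₁ G : Type) [Field K] [Field F₁] [Algebra K F₁] [Group G] (α : G →* Gal(F₁/K))
    [Normal K F₁] : Prop :=
  ∃ (F : Type) (_ : Field F) (_ : Algebra K F) (_ : Algebra F₁ F) (_ : IsScalarTower K F₁ F),
    FiniteDimensional K F ∧ IsGalois K F ∧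
      ∃ γ : Gal(F/K) ≃* G, ∀ σ : Gal(F/K), α (γ σ) = σ.restrictNormal F₁

lemma LiftsOn.congr {X G X' G' : Type} [Group X] [Group G] [Group X'] [Group G'] {π : X →* G}
    {N : Subgroup G} {k : ℕ} (h : LiftsOn π N k) (e : X' ≃* X) (ι : G' ≃* G) {π' : X' →* G'}
    (hc : ∀ x, ι (π' x) = π (e x)) {N' : Subgroup G'} (hN : ∀ x ∈ N', ι x ∈ N) :
    LiftsOn π' N' k := by
  intro hk S hSN l hl ρ
  set S₁ : Subgroup G := S.map ι.toMonoidHom with hS₁
  have hmem : ∀ g : G, g ∈ S₁ → ι.symm g ∈ S := by
    rintro g ⟨s, hs, rfl⟩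
    have : ι.symm (ι s) = s := ι.symm_apply_apply s
    exact this.symm ▸ hs
  have hS₁N : S₁ ≤ N := by
    rintro g ⟨s, hs, rfl⟩
    exact hN s (hSN hs)
  let back : S₁ →* S := (ι.symm.toMonoidHom.comp S₁.subtype).codRestrict S (fun g => hmem _ g.2)
  obtain ⟨χ, hχ⟩ := h hk S₁ hS₁N l hl (ρ.comp back)
  have hfor : ∀ s : S.comap π', e s ∈ S₁.comap π := by
    intro s
    refine ⟨π' s, s.2, ?_⟩
    exact hc s
  let forw : (S.comap π') →* (S₁.comap π) :=
    (e.toMonoidHom.comp (S.comap π').subtype).codRestrict _ hfor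
  refine ⟨χ.comp forw, fun s => ?_⟩
  have h1 := hχ (forw s)
  rw [MonoidHom.comp_apply, h1]
  rw [MonoidHom.comp_apply]
  congr 1
  apply Subtype.ext
  have h2 : ι.symm (π (e s)) = π' s := by
    rw [← hc, ι.symm_apply_apply]
  exact h2

/-- If all finite split embedding problems over `K` have proper solutions, they have proper solutions
inside larger fields such that the restriction map has the lifting property. -/
theorem exists_big {K F₁ : Type} [Field K] [Field F₁] [Algebra K F₁] [FiniteDimensional K F₁]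
    [IsGalois K F₁]
    (hK : ∀ (G : Type) [Group G] [Finite G] (α : G →* Gal(F₁/K)), Surjective α →
      (∃ s : Gal(F₁/K) →* G, ∀ x, α (s x) = x) → Solvable K F₁ G α)
    (G : Type) [Group G] [Finite G] (α : G →* Gal(F₁/K)) (hα : Surjective α)
    (hs : ∃ s : Gal(F₁/K) →* G, ∀ x, α (s x) = x) (k : ℕ) (hk : 0 < k) :
    ∃ (M : Type) (_ : Field M) (_ : Algebra K M) (_ : FiniteDimensional K M) (_ : IsGalois K M)
      (F : Type) (_ : Field F) (_ : Algebra K F) (_ : Algebra F M) (_ : IsScalarTower K F M)
      (_ : IsGalois K F) (_ : Algebra F₁ F) (_ : IsScalarTower K F₁ F)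
      (γ : Gal(F/K) ≃* G), (∀ σ : Gal(F/K), α (γ σ) = σ.restrictNormal F₁) ∧
        LiftsOn (AlgEquiv.restrictNormalHom (F := K) (K₁ := M) F)
          (AlgEquiv.restrictNormalHom (F := K) (K₁ := F) F₁).ker k := by
  obtain ⟨s, hs⟩ := hs
  obtain ⟨X, i1, i2, π, s', hπ, hπs, hlift⟩ := exists_split_cover α s hs hk
  obtain ⟨M, j1, j2, j3, j4, j5, j6, γM, hγM⟩ := hK X (α.comp π) (hα.comp hπ)
    ⟨s', fun x => by rw [MonoidHom.comp_apply, hπs, hs]⟩
  set N : Subgroup Gal(M/K) := (π.comp γM.toMonoidHom).ker with hN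
  have hNn : N.Normal := inferInstance
  have hgal : IsGalois K (IntermediateField.fixedField N) :=
    IsGalois.of_fixedField_normal_subgroup N
  set F := IntermediateField.fixedField N with hF
  -- the algebra structure
  have hin : ∀ x : F₁, algebraMap F₁ M x ∈ F := by
    intro x
    rw [hF, IntermediateField.mem_fixedField_iff]
    intro σ hσ
    have h1 : σ.restrictNormal F₁ = 1 := by
      rw [← hγM, MonoidHom.comp_apply]
      have : π (γM σ) = 1 := hσ
      rw [this, map_one]
    rw [← AlgEquiv.restrictNormal_commutes σ F₁ x, h1]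
    rfl
  let f : F₁ →+* F := (algebraMap F₁ M).codRestrict F.toSubfield.toSubring hin
  let aF : Algebra F₁ F := f.toAlgebra
  have hfM : ∀ x : F₁, ((algebraMap F₁ F x : F) : M) = algebraMap F₁ M x := fun x => rfl
  have tF : IsScalarTower K F₁ F := IsScalarTower.of_algebraMap_eq (by
    intro x
    apply Subtype.ext
    rw [hfM, ← IsScalarTower.algebraMap_apply]
    rfl)
  have tF' : IsScalarTower F₁ F M := IsScalarTower.of_algebraMap_eq (by
    intro x
    exact (hfM x).symm)
  set res := AlgEquiv.restrictNormalHom (F := K) (K₁ := M) F with hres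
  have hressurj : Surjective res := AlgEquiv.restrictNormalHom_surjective M
  have hker : res.ker = N := by
    rw [hres, IntermediateField.restrictNormalHom_ker, hF,
      IntermediateField.fixingSubgroup_fixedField]
  have hsj : Surjective (π.comp γM.toMonoidHom) := hπ.comp γM.surjective
  let ι : Gal(F/K) ≃* G :=
    (QuotientGroup.quotientKerEquivOfSurjective res hressurj).symm.trans
      ((QuotientGroup.quotientMulEquivOfEq hker).trans
        (QuotientGroup.quotientKerEquivOfSurjective _ hsj))
  have hι : ∀ x, ι (res x) = π (γM x) := by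
    intro x
    have h1 : (QuotientGroup.quotientKerEquivOfSurjective res hressurj).symm (res x) =
        (x : Gal(M/K) ⧸ res.ker) := by
      rw [MulEquiv.symm_apply_eq]
      rfl
    show (QuotientGroup.quotientKerEquivOfSurjective _ hsj)
      ((QuotientGroup.quotientMulEquivOfEq hker)
      ((QuotientGroup.quotientKerEquivOfSurjective res hressurj).symm (res x))) = π (γM x)
    rw [h1]
    rfl
  have hcomp : ∀ σ : Gal(F/K), α (ι σ) = σ.restrictNormal F₁ := by
    intro σ
    obtain ⟨x, rfl⟩ := hressurj σ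
    rw [hι, ← MonoidHom.comp_apply, hγM]
    ext y
    apply (algebraMap F₁ M).injective
    rw [AlgEquiv.restrictNormal_commutes, ← hfM, ← hfM]
    rw [AlgEquiv.restrictNormal_commutes (res x) F₁ y]
    exact (AlgEquiv.restrictNormal_commutes x F (algebraMap F₁ F y)).symm
  refine ⟨M, j1, j2, j5, j6, F, inferInstance, inferInstance, inferInstance, inferInstance, hgal,
    aF, tF, ι, hcomp, hlift.congr γM ι hι ?_⟩
  intro x hx
  rw [MonoidHom.mem_ker, hcomp]
  exact hx

end Pool.Agent.U975.RE
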